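import Mathlib
import Pool.Agent.W223.HZ.Stms

/-!
# The integers `k` from forms whose first coefficient is a nonzero cube
-/

set_option autoImplicit false

namespace Pool.Agent.W348.HZ

open Pool.Agent.W223.HZ

/-- the integers of absolute value at most `B` -/
noncomputable def bx (B : ℝ) : Finset ℤ := Finset.Icc (-⌊B⌋) ⌊B⌋

theorem mem_bx {B : ℝ} {n : ℤ} (h : |(n : ℝ)| ≤ B) : n ∈ bx B := by
  rw [bx, Finset.mem_Icc]
  rw [abs_le] at h
  constructor
  · rw [neg_le]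
    apply Int.le_floor.2
    push_cast
    linarith
  · exact Int.le_floor.2 h.2

theorem card_bx {B : ℝ} (h : 0 ≤ B) : ((bx B).card : ℝ) ≤ 2 * B + 1 := by
  rw [bx, Int.card_Icc]
  have h1 : 0 ≤ ⌊B⌋ := Int.floor_nonneg.2 h
  have h2 : ((⌊B⌋ + 1 - -⌊B⌋).toNat : ℝ) = ((⌊B⌋ + 1 - -⌊B⌋ : ℤ) : ℝ) := by
    rw [← Int.cast_natCast, Int.toNat_of_nonneg (by omega)]
  rw [h2]
  push_cast
  linarith [Int.floor_le B]

theorem card_bx_erase {B : ℝ} (h : 0 ≤ B) : (((bx B).erase 0).card : ℝ) ≤ 2 * B := by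
  have h0 : (0 : ℤ) ∈ bx B := mem_bx (by simpa using h)
  have h1 : ((bx B).erase 0).card + 1 = (bx B).card := Finset.card_erase_add_one h0
  have h2 := card_bx h
  rw [← h1] at h2
  push_cast at h2
  linarith

theorem t : StmtCCU := by
  refine ⟨12 * 401 * 402 * 408, by norm_num, ?_⟩
  intro R T hR hT hTR
  have hT0 : 0 < T := by linarith
  have hR0 : 0 < R := by linarith
  have hT3 : 0 < T ^ 3 := by positivity
  set E : ℝ := 6 * R ^ ((1 : ℝ) / 3) / T with hE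
  have hE0 : 0 ≤ E := by positivity
  set F : Finset (ℤ × ℤ × ℤ × ℤ) := ((bx E).erase 0) ×ˢ (bx (200 * R / T)) ×ˢ
    (bx (200 * (R * T))) ×ˢ (bx (200 * (R * T ^ 3))) with hF
  let f : ℤ × ℤ × ℤ × ℤ → ℤ := fun v => disc4 (v.1 ^ 3) v.2.1 v.2.2.1 v.2.2.2 / 4
  have hsub : {k : ℤ | ∃ a b c d e : ℤ, |(a : ℝ)| * T ^ 3 ≤ 200 * R ∧ |(b : ℝ)| * T ≤ 200 * R ∧
    |(c : ℝ)| ≤ 200 * (R * T) ∧ |(d : ℝ)| ≤ 200 * (R * T ^ 3) ∧ e ^ 3 = a ∧ a ≠ 0 ∧
    disc4 a b c d = 4 * k} ⊆ ((F.image f : Finset ℤ) : Set ℤ) := by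
    rintro k ⟨a, b, c, d, e, ha, hb, hc, hd, he, ha0, hk⟩
    rw [Finset.mem_coe, Finset.mem_image]
    refine ⟨(e, b, c, d), ?_, ?_⟩
    · rw [hF, Finset.mem_product, Finset.mem_product, Finset.mem_product, Finset.mem_erase]
      refine ⟨⟨?_, mem_bx ?_⟩, mem_bx ?_, mem_bx hc, mem_bx hd⟩
      · rintro rfl
        apply ha0
        rw [← he]
        norm_num
      · rw [hE, le_div_iff₀ hT0]
        have h1 : (|(e : ℝ)| * T) ^ 3 ≤ (6 * R ^ ((1 : ℝ) / 3)) ^ 3 := by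
          have h2 : (R ^ ((1 : ℝ) / 3)) ^ 3 = R := by
            rw [← Real.rpow_natCast, ← Real.rpow_mul hR0.le]
            norm_num
          have h3 : |(e : ℝ)| ^ 3 = |(a : ℝ)| := by
            rw [← abs_pow, ← he]
            push_cast
            rfl
          rw [mul_pow, mul_pow, h2, h3]
          linarith
        exact le_of_pow_le_pow_left₀ (by norm_num) (by positivity) h1
      · rw [le_div_iff₀ hT0]
        exact hb
    · change disc4 (e ^ 3) b c d / 4 = k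
      rw [he, hk]
      simp
  refine ⟨(Finset.finite_toSet _).subset hsub, ?_⟩
  have h1 := Set.ncard_le_ncard hsub (Finset.finite_toSet _)
  rw [Set.ncard_coe_finset] at h1
  have h2 : (F.image f).card ≤ F.card := Finset.card_image_le
  have h3 : F.card = ((bx E).erase 0).card * ((bx (200 * R / T)).card *
      ((bx (200 * (R * T))).card * (bx (200 * (R * T ^ 3))).card)) := by
    rw [hF, Finset.card_product, Finset.card_product, Finset.card_product]
  have h4 : (F.card : ℝ) ≤ (12 * 401 * 402 * 408) * (R ^ ((1 : ℝ) / 3) * R ^ 3 * T ^ 2) := by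
    rw [h3]
    push_cast
    have c1 : (((bx E).erase 0).card : ℝ) ≤ 12 * (R ^ ((1 : ℝ) / 3) / T) := by
      refine (card_bx_erase hE0).trans (le_of_eq ?_)
      rw [hE]
      ring
    have hRT : 1 ≤ R / T := by
      rw [le_div_iff₀ hT0, one_mul]
      refine hTR.trans ?_
      calc R ^ ((26 : ℝ) / 100) ≤ R ^ (1 : ℝ) :=
            Real.rpow_le_rpow_of_exponent_le hR (by norm_num)
        _ = R := Real.rpow_one R
    have c2 : ((bx (200 * R / T)).card : ℝ) ≤ 401 * (R / T) := by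
      refine (card_bx (by positivity)).trans ?_
      rw [mul_div_assoc]
      linarith
    have hRT2 : 1 ≤ 2 * (R * T) := by nlinarith
    have c3 : ((bx (200 * (R * T))).card : ℝ) ≤ 402 * (R * T) := by
      refine (card_bx (by positivity)).trans ?_
      linarith
    have hT8 : 1 / 8 ≤ T ^ 3 := by
      have : (1 / 2 : ℝ) ^ 3 ≤ T ^ 3 := pow_le_pow_left₀ (by norm_num) hT 3
      norm_num at this
      linarith
    have hRT3 : 1 ≤ 8 * (R * T ^ 3) := by nlinarith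
    have c4 : ((bx (200 * (R * T ^ 3))).card : ℝ) ≤ 408 * (R * T ^ 3) := by
      refine (card_bx (by positivity)).trans ?_
      linarith
    calc (((bx E).erase 0).card : ℝ) * (((bx (200 * R / T)).card : ℝ) *
        (((bx (200 * (R * T))).card : ℝ) * ((bx (200 * (R * T ^ 3))).card : ℝ)))
        ≤ 12 * (R ^ ((1 : ℝ) / 3) / T) * (401 * (R / T) * (402 * (R * T) *
          (408 * (R * T ^ 3)))) := by gcongr
      _ = (12 * 401 * 402 * 408) * (R ^ ((1 : ℝ) / 3) * R ^ 3 * T ^ 2) := by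
          field_simp
          try ring
  have h5 : R ^ ((1 : ℝ) / 3) * R ^ 3 * T ^ 2 ≤ R ^ ((39 : ℝ) / 10) := by
    have h6 : T ^ 2 ≤ R ^ ((52 : ℝ) / 100) := by
      calc T ^ 2 ≤ (R ^ ((26 : ℝ) / 100)) ^ 2 := pow_le_pow_left₀ hT0.le hTR 2
        _ = R ^ ((52 : ℝ) / 100) := by
          rw [← Real.rpow_natCast, ← Real.rpow_mul hR0.le]
          norm_num
    calc R ^ ((1 : ℝ) / 3) * R ^ 3 * T ^ 2 ≤ R ^ ((1 : ℝ) / 3) * R ^ 3 * R ^ ((52 : ℝ) / 100) := by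
          gcongr
      _ = R ^ ((1 : ℝ) / 3 + 3 + 52 / 100) := by
          rw [Real.rpow_add hR0, Real.rpow_add hR0]
          norm_num [Real.rpow_natCast]
      _ ≤ R ^ ((39 : ℝ) / 10) := Real.rpow_le_rpow_of_exponent_le hR (by norm_num)
  calc (({k : ℤ | ∃ a b c d e : ℤ, |(a : ℝ)| * T ^ 3 ≤ 200 * R ∧ |(b : ℝ)| * T ≤ 200 * R ∧
    |(c : ℝ)| ≤ 200 * (R * T) ∧ |(d : ℝ)| ≤ 200 * (R * T ^ 3) ∧ e ^ 3 = a ∧ a ≠ 0 ∧
    disc4 a b c d = 4 * k}.ncard : ℕ) : ℝ) ≤ (F.card : ℝ) := by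
        exact_mod_cast h1.trans h2
    _ ≤ (12 * 401 * 402 * 408) * (R ^ ((1 : ℝ) / 3) * R ^ 3 * T ^ 2) := h4
    _ ≤ (12 * 401 * 402 * 408) * R ^ ((39 : ℝ) / 10) := by gcongr

end Pool.Agent.W348.HZ
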